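import Pool.Agent.helper51.VF.SpecA

/-! # LGV -/

set_option autoImplicit false

namespace Pool.Agent.VF

open Pool.Agent.PC Pool.Agent.QS

universe u

theorem LGV (hEXP : EXP_stmt.{u}) (hPSF : PSF_stmt.{u}) (hHSD : HSD_stmt.{u}) (hTVB : TVB_stmt.{u})
    (hTEX : TEX_stmt.{u}) (hWDD : WDD_stmt.{u}) (hWLF : WLF_stmt.{u}) (hYWV : QS.YWV_stmt.{u})
    (hWDR : QS.WDR_stmt.{u}) : LGV_stmt.{u} := by
  intro k R A F K _ _ _ _ _ _ _ _ _ _ _ _ _ _ _ _ _ _ _ _ _ _ _ _ _ _ p _ _ hFol n hn hK hF m _ y φ D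
    hT hD w v hW δ hδ hloc j0 hj0
  have hdual := hD.1
  have hY := (hYWV k A K n m y φ hT w v hW).1
  have hR := hWDR k A K n m y φ D hT hD w v hW
  have hex : ∃ l, δ (algebraMap A K (y l)) ≠ 0 := by
    by_contra hc
    push Not at hc
    apply hδ
    ext x
    have h1 := hEXP k K n D (fun i => algebraMap A K (y i)) hn hK hdual (δ.restrictScalars k) x
    have h2 : (δ.restrictScalars k) x = δ x := rfl
    rw [h2] at h1
    rw [h1]
    apply Finset.sum_eq_zero
    intro l _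
    have h3 : (δ.restrictScalars k) (algebraMap A K (y l)) = 0 := hc l
    rw [h3, zero_mul]
  classical
  obtain ⟨l0, hl0⟩ := hex
  obtain ⟨l1, hl1, hmin⟩ := Finset.exists_min_image
    (Finset.univ.filter fun l => δ (algebraMap A K (y l)) ≠ 0)
    (fun l => v (δ (algebraMap A K (y l))) - (w l : ℤ))
    ⟨l0, Finset.mem_filter.2 ⟨Finset.mem_univ _, hl0⟩⟩
  rw [Finset.mem_filter] at hl1
  set j : ℤ := v (δ (algebraMap A K (y l1))) - (w l1 : ℤ) with hj
  have hjj : j0 ≤ j := by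
    rcases hj0 l1 with h | h
    · exact absurd h hl1.2
    · linarith
  have hge : ∀ i, Ge v ((w i : ℤ) + j) (δ (algebraMap A K (y i))) := by
    intro i
    by_cases h : δ (algebraMap A K (y i)) = 0
    · exact Or.inl h
    · right
      have := hmin i (Finset.mem_filter.2 ⟨Finset.mem_univ _, h⟩)
      linarith
  have hDV : DVal v := hW.1
  have hdd := hWDD k F K n D (fun i => algebraMap A K (y i)) hn hK hdual v (fun i => (w i : ℤ)) j δ
    hDV hY hR hge
  obtain ⟨τ, hτ⟩ := hHSD k A F K p n m y D hD δ hloc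
  have hτv := hTVB k A F K p n m y φ hT w v hW δ τ hloc hτ j hdd
  obtain ⟨T, hFr, hTv⟩ := hTEX k R A F K p n m y δ τ hFol.1 hτ v j hDV hτv
  have hpow : ∀ x : K, ∃ f : F, algebraMap F K f = x ^ p := by
    intro x
    obtain ⟨a, b, hb, rfl⟩ := IsFractionRing.div_surjective (A := A) x
    obtain ⟨r, hr⟩ := hFol.1 a
    obtain ⟨s, hs⟩ := hFol.1 b
    refine ⟨algebraMap R F r / algebraMap R F s, ?_⟩
    rw [map_div₀, ← IsScalarTower.algebraMap_apply R F K, ← IsScalarTower.algebraMap_apply R F K,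
      IsScalarTower.algebraMap_apply R A K, IsScalarTower.algebraMap_apply R A K s, hr, hs, map_pow,
      map_pow, div_pow]
  obtain ⟨Ψ, hΨ⟩ := hPSF k F K p hFol.2 hpow n D (fun i => algebraMap A K (y i)) hn hK hF hdual δ T
    hδ hFr
  refine ⟨T, Ψ, j, hFr, hΨ, hjj, ?_⟩
  exact hWLF k F K p n D (fun i => algebraMap A K (y i)) v (fun i => (w i : ℤ)) j δ T Ψ hDV hΨ hFr
    hY hR hTv ⟨l1, hl1.2, by rw [hj]; ring⟩

end Pool.Agent.VF
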